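import Pool.Agent.Helper40.MR.Defs

set_option autoImplicit false

open Finset MeasureTheory
open scoped BigOperators Nat

namespace Pool.Agent.Helper40.MR

/-- the summand of the Dirichlet series as a multiplicative function -/
noncomputable def eul_F (g : ℕ → ℂ) (hg : CM g) (s : ℂ) : ℕ →*₀ ℂ where
  toFun n := LSeries.term g s n
  map_zero' := LSeries.term_zero g s
  map_one' := by
    rw [LSeries.term_of_ne_zero one_ne_zero, hg.1, Nat.cast_one, Complex.one_cpow, div_one]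
  map_mul' m n := by
    rcases eq_or_ne m 0 with rfl | hm
    · rw [zero_mul, LSeries.term_zero, zero_mul]
    rcases eq_or_ne n 0 with rfl | hn
    · rw [mul_zero, LSeries.term_zero, mul_zero]
    rw [LSeries.term_of_ne_zero (mul_ne_zero hm hn), LSeries.term_of_ne_zero hm,
      LSeries.term_of_ne_zero hn, hg.2.1, Nat.cast_mul, Complex.natCast_mul_natCast_cpow]
    rw [div_mul_div_comm]

theorem eul_norm (g : ℕ → ℂ) (hg : CM g) (σ y : ℝ) (n : ℕ) (hn : n ≠ 0) :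
    ‖LSeries.term g (((1 + σ : ℝ) : ℂ) + (y : ℂ) * Complex.I) n‖ ≤ (n : ℝ) ^ (-(1 + σ)) := by
  rw [LSeries.term_of_ne_zero hn, norm_div, Complex.norm_natCast_cpow_of_pos (Nat.pos_of_ne_zero hn)]
  have h1 : (((1 + σ : ℝ) : ℂ) + (y : ℂ) * Complex.I).re = 1 + σ := by simp
  rw [h1, Real.rpow_neg (Nat.cast_nonneg n), ← one_div]
  have h2 : (0 : ℝ) ≤ (n : ℝ) ^ (1 + σ) := Real.rpow_nonneg (Nat.cast_nonneg n) _
  exact div_le_div_of_nonneg_right (hg.2.2 n) h2

theorem eul_re (g : ℕ → ℂ) (σ y : ℝ) (n : ℕ) (hn : n ≠ 0) :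
    (LSeries.term g (((1 + σ : ℝ) : ℂ) + (y : ℂ) * Complex.I) n).re
      = (g n * nit n y).re * (n : ℝ) ^ (-(1 + σ)) := by
  have hn0 : (0 : ℝ) < n := by exact_mod_cast Nat.pos_of_ne_zero hn
  have hnc : (n : ℂ) ≠ 0 := by exact_mod_cast hn
  have h1 : LSeries.term g (((1 + σ : ℝ) : ℂ) + (y : ℂ) * Complex.I) n
      = (g n * nit n y) * (((n : ℝ) ^ (-(1 + σ)) : ℝ) : ℂ) := by
    rw [LSeries.term_of_ne_zero hn, div_eq_mul_inv, ← Complex.cpow_neg, neg_add, Complex.cpow_add _ _ hnc,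
      Complex.ofReal_cpow hn0.le]
    unfold nit
    have h2 : (n : ℂ) ^ (-((y : ℂ) * Complex.I)) = Complex.exp (-(((y * Real.log n : ℝ)) : ℂ) * Complex.I) := by
      rw [Complex.cpow_def_of_ne_zero hnc, ← Complex.natCast_log]
      congr 1
      push_cast
      ring
    rw [h2]
    push_cast
    ring
  rw [h1, Complex.re_mul_ofReal]

theorem st_EUL : ST_EUL := by
  have hsum2 : Summable (fun n : ℕ => 1 / (n : ℝ) ^ 2) := Real.summable_one_div_nat_pow.2 (by norm_num)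
  have hP2 : Summable (fun p : Nat.Primes => 1 / ((p : ℕ) : ℝ) ^ 2) :=
    hsum2.comp_injective (i := fun p : Nat.Primes => (p : ℕ)) Nat.Primes.coe_nat_injective
  refine ⟨∑' p : Nat.Primes, 1 / ((p : ℕ) : ℝ) ^ 2 + 1, ?_, ?_⟩
  · have : 0 ≤ ∑' p : Nat.Primes, 1 / ((p : ℕ) : ℝ) ^ 2 := tsum_nonneg (fun p => by positivity)
    linarith
  intro g hg σ y hσ0 hσ1
  set s : ℂ := ((1 + σ : ℝ) : ℂ) + (y : ℂ) * Complex.I with hs
  have hFsum : Summable (fun n : ℕ => ‖eul_F g hg s n‖) := by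
    have h1 : Summable (fun n : ℕ => 1 / (n : ℝ) ^ (1 + σ)) := Real.summable_one_div_nat_rpow.2 (by linarith)
    refine Summable.of_nonneg_of_le (fun _ => norm_nonneg _) (fun n => ?_) h1
    rcases eq_or_ne n 0 with rfl | hn
    · rw [map_zero, norm_zero]; positivity
    · have h2 := eul_norm g hg σ y n hn
      rw [Real.rpow_neg (Nat.cast_nonneg n), ← one_div] at h2
      exact h2
  have hexp := EulerProduct.exp_tsum_primes_log_eq_tsum hFsum
  have hG : Gv g σ y = Complex.exp (∑' p : Nat.Primes, -Complex.log (1 - eul_F g hg s p)) := by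
    rw [hexp]; rfl
  refine ⟨by rw [hG]; exact Complex.exp_ne_zero _, ?_⟩
  have hlogsum : Summable (fun p : Nat.Primes => -Complex.log (1 - eul_F g hg s p)) :=
    (hFsum.of_norm.clog_one_sub.neg).comp_injective (i := fun p : Nat.Primes => (p : ℕ))
      Nat.Primes.coe_nat_injective
  have hFp : Summable (fun p : Nat.Primes => eul_F g hg s p) :=
    hFsum.of_norm.comp_injective (i := fun p : Nat.Primes => (p : ℕ)) Nat.Primes.coe_nat_injective
  rw [hG, Complex.norm_exp, Real.log_exp, Complex.re_tsum hlogsum]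
  have hterm : ∀ p : Nat.Primes, (g p * nit p y).re * ((p : ℕ) : ℝ) ^ (-(1 + σ)) = (eul_F g hg s p).re :=
    fun p => (eul_re g σ y p p.2.ne_zero).symm
  rw [tsum_congr hterm]
  have hb : ∀ p : Nat.Primes, ‖-Complex.log (1 - eul_F g hg s p) - eul_F g hg s p‖ ≤ 1 / ((p : ℕ) : ℝ) ^ 2 := by
    intro p
    set z : ℂ := eul_F g hg s p with hz
    have hp2 : (2 : ℝ) ≤ ((p : ℕ) : ℝ) := by exact_mod_cast p.2.two_le
    have hzn : ‖z‖ ≤ 1 / ((p : ℕ) : ℝ) := by
      refine (eul_norm g hg σ y p p.2.ne_zero).trans ?_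
      rw [Real.rpow_neg (Nat.cast_nonneg _), ← one_div]
      have h1 : ((p : ℕ) : ℝ) ≤ ((p : ℕ) : ℝ) ^ (1 + σ) := by
        calc ((p : ℕ) : ℝ) = ((p : ℕ) : ℝ) ^ (1 : ℝ) := (Real.rpow_one _).symm
          _ ≤ ((p : ℕ) : ℝ) ^ (1 + σ) := Real.rpow_le_rpow_of_exponent_le (by linarith) (by linarith)
      exact one_div_le_one_div_of_le (by linarith) h1
    have hz2 : ‖z‖ ≤ 1 / 2 := hzn.trans (one_div_le_one_div_of_le (by norm_num) hp2)
    have h1 : ‖Complex.log (1 + -z) - -z‖ ≤ ‖-z‖ ^ 2 * (1 - ‖-z‖)⁻¹ / 2 :=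
      Complex.norm_log_one_add_sub_self_le (by rw [norm_neg]; linarith)
    rw [norm_neg] at h1
    have h2 : -Complex.log (1 - z) - z = -(Complex.log (1 + -z) - -z) := by
      rw [← sub_eq_add_neg]; ring
    rw [h2, norm_neg]
    refine h1.trans ?_
    have h3 : (1 - ‖z‖)⁻¹ ≤ 2 := by
      rw [inv_le_comm₀ (by linarith) (by norm_num)]
      linarith
    have h4 : ‖z‖ ^ 2 * (1 - ‖z‖)⁻¹ / 2 ≤ ‖z‖ ^ 2 := by
      have h5 : ‖z‖ ^ 2 * (1 - ‖z‖)⁻¹ ≤ ‖z‖ ^ 2 * 2 := mul_le_mul_of_nonneg_left h3 (by positivity)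
      linarith
    refine h4.trans ?_
    calc ‖z‖ ^ 2 ≤ (1 / ((p : ℕ) : ℝ)) ^ 2 := pow_le_pow_left₀ (norm_nonneg z) hzn 2
      _ = 1 / ((p : ℕ) : ℝ) ^ 2 := by rw [div_pow, one_pow]
  have h1 : Summable (fun p : Nat.Primes => (-Complex.log (1 - eul_F g hg s p)).re) :=
    (Complex.hasSum_re hlogsum.hasSum).summable
  have h2 : Summable (fun p : Nat.Primes => (eul_F g hg s p).re) :=
    (Complex.hasSum_re hFp.hasSum).summable
  rw [← h1.tsum_sub h2]
  have h3 : ∀ p : Nat.Primes, |(-Complex.log (1 - eul_F g hg s p)).re - (eul_F g hg s p).re|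
      ≤ 1 / ((p : ℕ) : ℝ) ^ 2 := by
    intro p
    rw [← Complex.sub_re]
    exact (Complex.abs_re_le_norm _).trans (hb p)
  have h4 : ‖∑' p : Nat.Primes, ((-Complex.log (1 - eul_F g hg s p)).re - (eul_F g hg s p).re)‖
      ≤ ∑' p : Nat.Primes, 1 / ((p : ℕ) : ℝ) ^ 2 := tsum_of_norm_bounded hP2.hasSum h3
  rw [Real.norm_eq_abs] at h4
  linarith

end Pool.Agent.Helper40.MR
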