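import Pool.Agent.Helper40.MR.Defs

set_option autoImplicit false

open Finset MeasureTheory
open scoped BigOperators Nat

namespace Pool.Agent.Helper40.MR

theorem win_mem (X : ℝ) (hX : 1 ≤ X) (n : ℕ) : n ∈ IocN X (2 * X) ↔ X < n ∧ (n : ℝ) ≤ 2 * X := by
  unfold IocN
  rw [Finset.mem_Ioc, Nat.floor_lt (by linarith), Nat.le_floor_iff (by linarith)]

theorem win_G (X δ : ℝ) (b : ℕ → ℂ) (u : ℝ) :
    ∑ n ∈ (IocN X (2 * X)).filter (fun n : ℕ => u < Real.log n ∧ Real.log n ≤ u + δ), b n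
      = ∑ n ∈ IocN X (2 * X), (Set.Ico (Real.log n - δ) (Real.log n)).indicator (fun _ => b n) u := by
  rw [Finset.sum_filter]
  refine Finset.sum_congr rfl (fun n _ => ?_)
  unfold Set.indicator
  by_cases h : u < Real.log n ∧ Real.log n ≤ u + δ
  · rw [if_pos h, if_pos]
    exact ⟨by linarith [h.2], h.1⟩
  · rw [if_neg h, if_neg]
    intro h1
    exact h ⟨h1.2, by linarith [h1.1]⟩

theorem win_integrable (X δ : ℝ) (b : ℕ → ℂ) :
    Integrable (fun u : ℝ => ∑ n ∈ (IocN X (2 * X)).filter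
      (fun n : ℕ => u < Real.log n ∧ Real.log n ≤ u + δ), b n) := by
  have h : (fun u : ℝ => ∑ n ∈ (IocN X (2 * X)).filter
      (fun n : ℕ => u < Real.log n ∧ Real.log n ≤ u + δ), b n)
      = fun u => ∑ n ∈ IocN X (2 * X), (Set.Ico (Real.log n - δ) (Real.log n)).indicator (fun _ => b n) u :=
    funext (fun u => win_G X δ b u)
  rw [h]
  refine integrable_finsetSum _ (fun n _ => ?_)
  rw [integrable_indicator_iff measurableSet_Ico]
  refine integrableOn_const ?_ ?_
  · rw [Real.volume_Ico]; exact ENNReal.ofReal_ne_top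
  · exact enorm_ne_top

/-- the weight of `n` in the averaged window -/
noncomputable def win_w (p q δ : ℝ) (n : ℕ) : ℝ :=
  max (min q (Real.log n) - max p (Real.log n - δ)) 0

theorem win_int (X δ p q : ℝ) (b : ℕ → ℂ) :
    ∫ u in Set.Ico p q, ∑ n ∈ (IocN X (2 * X)).filter
      (fun n : ℕ => u < Real.log n ∧ Real.log n ≤ u + δ), b n
      = ∑ n ∈ IocN X (2 * X), (win_w p q δ n : ℂ) * b n := by
  have h : (fun u : ℝ => ∑ n ∈ (IocN X (2 * X)).filter
      (fun n : ℕ => u < Real.log n ∧ Real.log n ≤ u + δ), b n)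
      = fun u => ∑ n ∈ IocN X (2 * X), (Set.Ico (Real.log n - δ) (Real.log n)).indicator (fun _ => b n) u :=
    funext (fun u => win_G X δ b u)
  rw [h, integral_finsetSum]
  · refine Finset.sum_congr rfl (fun n _ => ?_)
    rw [setIntegral_indicator measurableSet_Ico, Set.Ico_inter_Ico, setIntegral_const,
      Real.volume_real_Ico, Complex.real_smul]
    rfl
  · intro n _
    refine Integrable.integrableOn ?_
    rw [integrable_indicator_iff measurableSet_Ico]
    refine integrableOn_const ?_ ?_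
    · rw [Real.volume_Ico]; exact ENNReal.ofReal_ne_top
    · exact enorm_ne_top

/-- number of integers in an interval `(y, y exp δ)` -/
theorem win_count (X δ y : ℝ) (hX : 1 ≤ X) (hδ0 : 0 < δ) (hδ1 : δ ≤ 1) (hy : 0 < y) :
    (((IocN X (2 * X)).filter (fun n : ℕ => y < n ∧ (n : ℝ) < y * Real.exp δ)).card : ℝ) ≤ 4 * X * δ + 1 := by
  by_cases h2 : 2 * X ≤ y
  · have h3 : (IocN X (2 * X)).filter (fun n : ℕ => y < n ∧ (n : ℝ) < y * Real.exp δ) = ∅ := by
      rw [Finset.filter_eq_empty_iff]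
      intro n hn h4
      have h5 := ((win_mem X hX n).1 hn).2
      linarith [h4.1]
    rw [h3, Finset.card_empty, Nat.cast_zero]
    positivity
  · rw [not_le] at h2
    have hexp : Real.exp δ - 1 ≤ 2 * δ := by
      have h3 := Real.abs_exp_sub_one_le (x := δ) (by rw [abs_of_pos hδ0]; exact hδ1)
      rw [abs_of_pos hδ0] at h3
      exact (le_abs_self _).trans h3
    have hsub : (IocN X (2 * X)).filter (fun n : ℕ => y < n ∧ (n : ℝ) < y * Real.exp δ)
        ⊆ Finset.Ioc ⌊y⌋₊ ⌊y * Real.exp δ⌋₊ := by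
      intro n hn
      have h4 := (Finset.mem_filter.1 hn).2
      rw [Finset.mem_Ioc]
      refine ⟨(Nat.floor_lt hy.le).2 h4.1, Nat.le_floor h4.2.le⟩
    have h5 : (((IocN X (2 * X)).filter (fun n : ℕ => y < n ∧ (n : ℝ) < y * Real.exp δ)).card : ℝ)
        ≤ ((⌊y * Real.exp δ⌋₊ - ⌊y⌋₊ : ℕ) : ℝ) := by
      have := Finset.card_le_card hsub
      rw [Nat.card_Ioc] at this
      exact_mod_cast this
    refine h5.trans ?_
    have h1 : ⌊y⌋₊ ≤ ⌊y * Real.exp δ⌋₊ := by
      apply Nat.floor_mono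
      have : 1 ≤ Real.exp δ := Real.one_le_exp hδ0.le
      nlinarith
    rw [Nat.cast_sub h1]
    have h6 : ((⌊y * Real.exp δ⌋₊ : ℕ) : ℝ) ≤ y * Real.exp δ := Nat.floor_le (by positivity)
    have h7 : y < (⌊y⌋₊ : ℝ) + 1 := Nat.lt_floor_add_one y
    have h8 : y * (Real.exp δ - 1) ≤ 2 * X * (2 * δ) := by
      have h9 : 0 ≤ Real.exp δ - 1 := by
        have : 1 ≤ Real.exp δ := Real.one_le_exp hδ0.le
        linarith
      exact mul_le_mul h2.le hexp h9 (by linarith)
    nlinarith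

/-- comparison of the weight with the window -/
theorem win_cmp (x δ : ℝ) (L n : ℕ) (hx : 0 < x) (hδ0 : 0 < δ) (hn : 1 ≤ n) :
    |(if x < n ∧ (n : ℝ) ≤ x + L then (1 : ℝ) else 0) -
      win_w (Real.log x) (Real.log (x + L)) δ n / δ| ≤
      (if x < n ∧ (n : ℝ) < x * Real.exp δ then (1 : ℝ) else 0) +
      (if x + L < n ∧ (n : ℝ) < (x + L) * Real.exp δ then (1 : ℝ) else 0) := by
  have hn0 : (0 : ℝ) < n := by exact_mod_cast hn
  have hL0 : (0 : ℝ) ≤ L := Nat.cast_nonneg L
  have hxL : 0 < x + L := by linarith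
  have hw0 : 0 ≤ win_w (Real.log x) (Real.log (x + L)) δ n := le_max_right _ _
  have hw1 : win_w (Real.log x) (Real.log (x + L)) δ n ≤ δ := by
    unfold win_w
    refine max_le ?_ hδ0.le
    have h1 := min_le_right (Real.log (x + L)) (Real.log n)
    have h2 := le_max_right (Real.log x) (Real.log n - δ)
    linarith
  have hd0 : 0 ≤ win_w (Real.log x) (Real.log (x + L)) δ n / δ := div_nonneg hw0 hδ0.le
  have hd1 : win_w (Real.log x) (Real.log (x + L)) δ n / δ ≤ 1 := by
    rw [div_le_one hδ0]; exact hw1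
  have hlogmul : ∀ y : ℝ, 0 < y → Real.log (y * Real.exp δ) = Real.log y + δ := by
    intro y hy
    rw [Real.log_mul hy.ne' (Real.exp_pos δ).ne', Real.log_exp]
  by_cases h1 : x < n
  · by_cases h2 : (n : ℝ) ≤ x + L
    · rw [if_pos ⟨h1, h2⟩]
      have h5 : (0 : ℝ) ≤ (if x + L < n ∧ (n : ℝ) < (x + L) * Real.exp δ then (1 : ℝ) else 0) := by
        split_ifs <;> norm_num
      by_cases h3 : (n : ℝ) < x * Real.exp δ
      · rw [if_pos ⟨h1, h3⟩, abs_of_nonneg (by linarith)]
        linarith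
      · rw [not_lt] at h3
        have h4 : Real.log x + δ ≤ Real.log n := by
          rw [← hlogmul x hx]
          exact Real.log_le_log (by positivity) h3
        have h6 : Real.log n ≤ Real.log (x + L) := Real.log_le_log hn0 h2
        have h7 : win_w (Real.log x) (Real.log (x + L)) δ n = δ := by
          unfold win_w
          rw [min_eq_right h6, max_eq_right (by linarith : Real.log x ≤ Real.log n - δ),
            sub_sub_cancel, max_eq_left hδ0.le]
        rw [h7, div_self hδ0.ne', sub_self, abs_zero]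
        have h8 : (0 : ℝ) ≤ (if x < n ∧ (n : ℝ) < x * Real.exp δ then (1 : ℝ) else 0) := by
          split_ifs <;> norm_num
        linarith
    · rw [not_le] at h2
      rw [if_neg (fun h => absurd h.2 (not_le.2 h2))]
      have h5 : (0 : ℝ) ≤ (if x < n ∧ (n : ℝ) < x * Real.exp δ then (1 : ℝ) else 0) := by
        split_ifs <;> norm_num
      rw [zero_sub, abs_neg, abs_of_nonneg hd0]
      by_cases h3 : (n : ℝ) < (x + L) * Real.exp δ
      · rw [if_pos (⟨h2, h3⟩ : x + L < n ∧ (n : ℝ) < (x + L) * Real.exp δ)]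
        linarith
      · rw [not_lt] at h3
        have h4 : Real.log (x + L) + δ ≤ Real.log n := by
          rw [← hlogmul (x + L) hxL]
          exact Real.log_le_log (by positivity) h3
        have h7 : win_w (Real.log x) (Real.log (x + L)) δ n = 0 := by
          unfold win_w
          apply max_eq_right
          have h8 := min_le_left (Real.log (x + L)) (Real.log n)
          have h9 := le_max_right (Real.log x) (Real.log n - δ)
          linarith
        rw [h7, zero_div]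
        have h8 : (0 : ℝ) ≤ (if x + L < n ∧ (n : ℝ) < (x + L) * Real.exp δ then (1 : ℝ) else 0) := by
          split_ifs <;> norm_num
        linarith
  · rw [not_lt] at h1
    rw [if_neg (fun h => absurd h.1 (not_lt.2 h1))]
    have h4 : Real.log n ≤ Real.log x := Real.log_le_log hn0 h1
    have h7 : win_w (Real.log x) (Real.log (x + L)) δ n = 0 := by
      unfold win_w
      apply max_eq_right
      have h8 := min_le_right (Real.log (x + L)) (Real.log n)
      have h9 := le_max_left (Real.log x) (Real.log n - δ)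
      linarith
    rw [h7, zero_div, sub_self, abs_zero]
    have h8 : (0 : ℝ) ≤ (if x + L < n ∧ (n : ℝ) < (x + L) * Real.exp δ then (1 : ℝ) else 0) := by
      split_ifs <;> norm_num
    have h5 : (0 : ℝ) ≤ (if x < n ∧ (n : ℝ) < x * Real.exp δ then (1 : ℝ) else 0) := by
      split_ifs <;> norm_num
    linarith

/-- one window -/
theorem win_one (X δ : ℝ) (L m : ℕ) (b : ℕ → ℂ) (hb : ∀ n, ‖b n‖ ≤ 1) (hδ0 : 0 < δ) (hδ1 : δ ≤ 1)
    (hX : 1 ≤ X) (hsupp : ∀ n : ℕ, (n : ℝ) ≤ X ∨ 2 * X < n → b n = 0) (hm : 1 ≤ m) :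
    ‖∑ j ∈ range L, b (m + j)‖ ≤
      1 / δ * (∫ u in Set.Ico (Real.log ((m : ℝ) - 1 / 2)) (Real.log ((m : ℝ) - 1 / 2 + L)),
        ‖∑ n ∈ (IocN X (2 * X)).filter
          (fun n : ℕ => u < Real.log n ∧ Real.log n ≤ u + δ), b n‖) + (8 * X * δ + 2) := by
  set x : ℝ := (m : ℝ) - 1 / 2 with hx
  have hm1 : (1 : ℝ) ≤ m := by exact_mod_cast hm
  have hx0 : 0 < x := by rw [hx]; linarith
  have hL0 : (0 : ℝ) ≤ L := Nat.cast_nonneg L
  have hxL : 0 < x + L := by linarith
  -- the window as a sum over the support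
  have hwin : ∑ j ∈ range L, b (m + j) =
      ∑ n ∈ IocN X (2 * X), (((if x < n ∧ (n : ℝ) ≤ x + L then (1 : ℝ) else 0) : ℝ) : ℂ) * b n := by
    have h1 : ∑ j ∈ range L, b (m + j) = ∑ n ∈ Finset.Ico m (m + L), b n := by
      rw [Finset.sum_Ico_eq_sum_range, Nat.add_sub_cancel_left]
    have h2 : ∑ n ∈ IocN X (2 * X), (((if x < n ∧ (n : ℝ) ≤ x + L then (1 : ℝ) else 0) : ℝ) : ℂ) * b n
        = ∑ n ∈ (IocN X (2 * X)).filter (fun n : ℕ => x < n ∧ (n : ℝ) ≤ x + L), b n := by
      rw [Finset.sum_filter]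
      refine Finset.sum_congr rfl (fun n _ => ?_)
      split_ifs
      · rw [Complex.ofReal_one, one_mul]
      · rw [Complex.ofReal_zero, zero_mul]
    rw [h1, h2]
    symm
    refine Finset.sum_subset ?_ ?_
    · intro n hn
      have h3 := (Finset.mem_filter.1 hn).2
      rw [Finset.mem_Ico]
      constructor
      · have h4 : (m : ℝ) < n + 1 := by linarith [h3.1]
        have h5 : m < n + 1 := by exact_mod_cast h4
        omega
      · have h4 : (n : ℝ) < m + L := by linarith [h3.2]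
        exact_mod_cast h4
    · intro n hn hn'
      rw [Finset.mem_Ico] at hn
      by_cases h6 : n ∈ IocN X (2 * X)
      · exfalso
        apply hn'
        rw [Finset.mem_filter]
        refine ⟨h6, ?_, ?_⟩
        · have : (m : ℝ) ≤ n := by exact_mod_cast hn.1
          linarith
        · have : ((n : ℝ) + 1) ≤ m + L := by exact_mod_cast hn.2
          linarith
      · apply hsupp
        rw [win_mem X hX, not_and_or, not_lt, not_le] at h6
        exact h6
  have hG := win_int X δ (Real.log x) (Real.log (x + L)) b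
  set G : ℝ → ℂ := fun u => ∑ n ∈ (IocN X (2 * X)).filter
          (fun n : ℕ => u < Real.log n ∧ Real.log n ≤ u + δ), b n with hGdef
  have hG' : ∫ u in Set.Ico (Real.log x) (Real.log (x + L)), G u
      = ∑ n ∈ IocN X (2 * X), (win_w (Real.log x) (Real.log (x + L)) δ n : ℂ) * b n := hG
  have hnormint : ‖∫ u in Set.Ico (Real.log x) (Real.log (x + L)), G u‖
      ≤ ∫ u in Set.Ico (Real.log x) (Real.log (x + L)), ‖G u‖ := norm_integral_le_integral_norm _
  have hdiff : ‖∑ j ∈ range L, b (m + j) -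
      ((1 / δ : ℝ) : ℂ) * ∫ u in Set.Ico (Real.log x) (Real.log (x + L)), G u‖ ≤ 8 * X * δ + 2 := by
    rw [hwin, hG', Finset.mul_sum, ← Finset.sum_sub_distrib]
    have h1 : ∀ n ∈ IocN X (2 * X),
        ‖(((if x < n ∧ (n : ℝ) ≤ x + L then (1 : ℝ) else 0) : ℝ) : ℂ) * b n -
          ((1 / δ : ℝ) : ℂ) * ((win_w (Real.log x) (Real.log (x + L)) δ n : ℂ) * b n)‖ ≤
        (if x < n ∧ (n : ℝ) < x * Real.exp δ then (1 : ℝ) else 0) +
        (if x + L < n ∧ (n : ℝ) < (x + L) * Real.exp δ then (1 : ℝ) else 0) := by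
      intro n hn
      have h2 := (win_mem X hX n).1 hn
      have hn1 : 1 ≤ n := by
        have h3 : (0 : ℝ) < n := by linarith [h2.1]
        exact_mod_cast h3
      have h4 : (((if x < n ∧ (n : ℝ) ≤ x + L then (1 : ℝ) else 0) : ℝ) : ℂ) * b n -
          ((1 / δ : ℝ) : ℂ) * ((win_w (Real.log x) (Real.log (x + L)) δ n : ℂ) * b n)
          = (((if x < n ∧ (n : ℝ) ≤ x + L then (1 : ℝ) else 0) -
            win_w (Real.log x) (Real.log (x + L)) δ n / δ : ℝ) : ℂ) * b n := by
        push_cast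
        ring
      rw [h4, norm_mul, Complex.norm_real, Real.norm_eq_abs]
      calc |(if x < n ∧ (n : ℝ) ≤ x + L then (1 : ℝ) else 0) -
            win_w (Real.log x) (Real.log (x + L)) δ n / δ| * ‖b n‖
          ≤ |(if x < n ∧ (n : ℝ) ≤ x + L then (1 : ℝ) else 0) -
            win_w (Real.log x) (Real.log (x + L)) δ n / δ| * 1 :=
            mul_le_mul_of_nonneg_left (hb n) (abs_nonneg _)
        _ ≤ _ := by
            rw [mul_one]
            exact win_cmp x δ L n hx0 hδ0 hn1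
    refine (norm_sum_le _ _).trans ((Finset.sum_le_sum h1).trans ?_)
    rw [Finset.sum_add_distrib, Finset.sum_boole, Finset.sum_boole]
    have h5 := win_count X δ x hX hδ0 hδ1 hx0
    have h6 := win_count X δ (x + L) hX hδ0 hδ1 hxL
    linarith
  have h7 : ‖∑ j ∈ range L, b (m + j)‖ ≤
      ‖∑ j ∈ range L, b (m + j) -
      ((1 / δ : ℝ) : ℂ) * ∫ u in Set.Ico (Real.log x) (Real.log (x + L)), G u‖ +
      ‖((1 / δ : ℝ) : ℂ) * ∫ u in Set.Ico (Real.log x) (Real.log (x + L)), G u‖ := by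
    have := norm_add_le (∑ j ∈ range L, b (m + j) -
      ((1 / δ : ℝ) : ℂ) * ∫ u in Set.Ico (Real.log x) (Real.log (x + L)), G u)
      (((1 / δ : ℝ) : ℂ) * ∫ u in Set.Ico (Real.log x) (Real.log (x + L)), G u)
    rw [sub_add_cancel] at this
    exact this
  have h8 : ‖((1 / δ : ℝ) : ℂ) * ∫ u in Set.Ico (Real.log x) (Real.log (x + L)), G u‖
      ≤ 1 / δ * ∫ u in Set.Ico (Real.log x) (Real.log (x + L)), ‖G u‖ := by
    rw [norm_mul, Complex.norm_real, Real.norm_eq_abs, abs_of_pos (by positivity : (0 : ℝ) < 1 / δ)]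
    exact mul_le_mul_of_nonneg_left hnormint (by positivity)
  linarith

/-- overlap of the windows -/
theorem win_overlap (L M : ℕ) (u : ℝ) :
    ∑ m ∈ Finset.Icc 1 M, (Set.Ico (Real.log ((m : ℝ) - 1 / 2)) (Real.log ((m : ℝ) - 1 / 2 + L))).indicator
      (fun _ => (1 : ℝ)) u ≤ L := by
  classical
  have h1 : ∀ m ∈ Finset.Icc 1 M, (Set.Ico (Real.log ((m : ℝ) - 1 / 2)) (Real.log ((m : ℝ) - 1 / 2 + L))).indicator
      (fun _ => (1 : ℝ)) u ≤ if m ∈ Finset.Ico (⌊Real.exp u + 1 / 2⌋₊ + 1 - L) (⌊Real.exp u + 1 / 2⌋₊ + 1)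
        then (1 : ℝ) else 0 := by
    intro m hm
    have hm1 : 1 ≤ m := (Finset.mem_Icc.1 hm).1
    have hm1' : (1 : ℝ) ≤ m := by exact_mod_cast hm1
    have hL0 : (0 : ℝ) ≤ L := Nat.cast_nonneg L
    unfold Set.indicator
    by_cases h : u ∈ Set.Ico (Real.log ((m : ℝ) - 1 / 2)) (Real.log ((m : ℝ) - 1 / 2 + L))
    · rw [if_pos h]
      have h2 : (m : ℝ) - 1 / 2 ≤ Real.exp u := by
        rw [← Real.log_le_iff_le_exp (by linarith)]; exact h.1
      have h3 : Real.exp u < (m : ℝ) - 1 / 2 + L := by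
        rw [← Real.lt_log_iff_exp_lt (by linarith)]; exact h.2
      rw [if_pos]
      rw [Finset.mem_Ico]
      constructor
      · have h4 : ((⌊Real.exp u + 1 / 2⌋₊ : ℕ) : ℝ) ≤ Real.exp u + 1 / 2 :=
          Nat.floor_le (by have := Real.exp_pos u; linarith)
        have h5 : ((⌊Real.exp u + 1 / 2⌋₊ : ℕ) : ℝ) < m + L := by linarith
        have h6 : ⌊Real.exp u + 1 / 2⌋₊ < m + L := by exact_mod_cast h5
        omega
      · have h4 : m ≤ ⌊Real.exp u + 1 / 2⌋₊ := Nat.le_floor (by linarith)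
        omega
    · rw [if_neg h]
      split_ifs <;> norm_num
  refine (Finset.sum_le_sum h1).trans ?_
  rw [Finset.sum_ite_mem, Finset.sum_const, nsmul_eq_mul, mul_one]
  have h2 : (Finset.Icc 1 M ∩ Finset.Ico (⌊Real.exp u + 1 / 2⌋₊ + 1 - L) (⌊Real.exp u + 1 / 2⌋₊ + 1)).card ≤ L := by
    refine (Finset.card_le_card Finset.inter_subset_right).trans ?_
    rw [Nat.card_Ico]
    omega
  exact_mod_cast h2

theorem st_WIN : ST_WIN := by
  refine ⟨16, by norm_num, ?_⟩
  intro X δ L b hb hδ0 hδ1 hX hLX hsupp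
  set G : ℝ → ℂ := fun u => ∑ n ∈ (IocN X (2 * X)).filter
          (fun n : ℕ => u < Real.log n ∧ Real.log n ≤ u + δ), b n with hGdef
  have hGi : Integrable G := win_integrable X δ b
  have hGn : Integrable (fun u => ‖G u‖) := hGi.norm
  set M : ℕ := ⌊2 * X⌋₊ with hM
  have hMX : (M : ℝ) ≤ 2 * X := Nat.floor_le (by linarith)
  have hr : range (M + 1) = insert 0 (Finset.Icc 1 M) := by
    ext m
    simp only [Finset.mem_range, Finset.mem_insert, Finset.mem_Icc]
    omega
  have h0 : ∑ m ∈ range (M + 1), ‖∑ j ∈ range L, b (m + j)‖ = ∑ m ∈ Finset.Icc 1 M, ‖∑ j ∈ range L, b (m + j)‖ := by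
    have h1 : ∑ j ∈ range L, b (0 + j) = 0 := by
      refine Finset.sum_eq_zero (fun j hj => ?_)
      apply hsupp
      left
      have h2 : (j : ℝ) < L := by exact_mod_cast Finset.mem_range.1 hj
      rw [zero_add]
      linarith
    have h2 : (0 : ℕ) ∉ Finset.Icc 1 M := by
      rw [Finset.mem_Icc]; omega
    rw [hr, Finset.sum_insert h2, h1, norm_zero, zero_add]
  rw [h0]
  have h1 : ∀ m ∈ Finset.Icc 1 M, ‖∑ j ∈ range L, b (m + j)‖ ≤
      1 / δ * (∫ u in Set.Ico (Real.log ((m : ℝ) - 1 / 2)) (Real.log ((m : ℝ) - 1 / 2 + L)), ‖G u‖)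
        + (8 * X * δ + 2) := fun m hm =>
    win_one X δ L m b hb hδ0 hδ1 hX hsupp (Finset.mem_Icc.1 hm).1
  refine (Finset.sum_le_sum h1).trans ?_
  rw [Finset.sum_add_distrib, ← Finset.mul_sum, Finset.sum_const, Nat.card_Icc, Nat.add_sub_cancel,
    nsmul_eq_mul]
  have h2 : ∑ m ∈ Finset.Icc 1 M, (∫ u in Set.Ico (Real.log ((m : ℝ) - 1 / 2))
      (Real.log ((m : ℝ) - 1 / 2 + L)), ‖G u‖) ≤ L * ∫ u : ℝ, ‖G u‖ := by
    have h3 : ∀ m ∈ Finset.Icc 1 M, (∫ u in Set.Ico (Real.log ((m : ℝ) - 1 / 2))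
      (Real.log ((m : ℝ) - 1 / 2 + L)), ‖G u‖) = ∫ u : ℝ, (Set.Ico (Real.log ((m : ℝ) - 1 / 2))
      (Real.log ((m : ℝ) - 1 / 2 + L))).indicator (fun u => ‖G u‖) u := fun m _ =>
      (integral_indicator measurableSet_Ico).symm
    rw [Finset.sum_congr rfl h3, ← integral_finsetSum, ← integral_const_mul]
    · refine integral_mono ?_ ?_ ?_
      · exact integrable_finsetSum _ (fun m _ => hGn.indicator measurableSet_Ico)
      · exact hGn.const_mul _
      · intro u
        have h4 := win_overlap L M u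
        have h5 : ∑ m ∈ Finset.Icc 1 M, (Set.Ico (Real.log ((m : ℝ) - 1 / 2))
            (Real.log ((m : ℝ) - 1 / 2 + L))).indicator (fun u => ‖G u‖) u
            = (∑ m ∈ Finset.Icc 1 M, (Set.Ico (Real.log ((m : ℝ) - 1 / 2))
            (Real.log ((m : ℝ) - 1 / 2 + L))).indicator (fun _ => (1 : ℝ)) u) * ‖G u‖ := by
          rw [Finset.sum_mul]
          refine Finset.sum_congr rfl (fun m _ => ?_)
          unfold Set.indicator
          split_ifs
          · rw [one_mul]
          · rw [zero_mul]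
        simp only []
        rw [h5]
        exact mul_le_mul_of_nonneg_right h4 (norm_nonneg _)
    · exact fun m _ => hGn.indicator measurableSet_Ico
  have h6 : 1 / δ * ∑ m ∈ Finset.Icc 1 M, (∫ u in Set.Ico (Real.log ((m : ℝ) - 1 / 2))
      (Real.log ((m : ℝ) - 1 / 2 + L)), ‖G u‖) ≤ L / δ * ∫ u : ℝ, ‖G u‖ := by
    have h7 : (L : ℝ) / δ * ∫ u : ℝ, ‖G u‖ = 1 / δ * (L * ∫ u : ℝ, ‖G u‖) := by ring
    rw [h7]
    exact mul_le_mul_of_nonneg_left h2 (by positivity)
  have h8 : (M : ℝ) * (8 * X * δ + 2) ≤ 2 * X * (8 * X * δ + 2) :=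
    mul_le_mul_of_nonneg_right hMX (by positivity)
  have h9 : 2 * X * (8 * X * δ + 2) ≤ 16 * X * (X * δ + 1) := by
    have h10 : 0 < X * (X * δ) := by positivity
    have h11 : 0 < X := by linarith
    nlinarith
  linarith

end Pool.Agent.Helper40.MR
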